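import Pool.Agent.K1H8.DF.Fermat

/-!
# Diagonal forms over a field in which `-1` is a sum of two squares

Let `K` be an extension field of the real numbers in which `-1` is a sum of two squares (for
instance the function field of a real curve without real points, by a theorem of Witt). Every
diagonal form of degree `d` over `K` in more than `m d` variables, whose coefficients lie in at most
`m` classes modulo real constants and `d`-th powers, has a nontrivial zero over `K`. The case `m = 1`
contains the diagonal forms of degree `d` with real coefficients in more than `d` variables.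

Proof for `∑ x_j ^ d`, `d` even, `0 ≤ j < N`, `N > d`: put `-1 = f ^ 2 + g ^ 2`, `w = f + i g`,
`w' = f - i g`, `ω` a primitive `N`-th root of unity,
`x_j = (1 + √u w ω ^ (-j)) (1 + √u w' ω ^ j) ∈ K`. Then
`∑ x_j ^ d = N ∑ k, (d choose k) ^ 2 (-u) ^ k`, a real polynomial in `u` (a Legendre polynomial in
another coordinate) with a root in the open unit interval.
-/

set_option autoImplicit false

namespace Pool.Agent.Results.MP_daea48_ag.RealDiagonalForms

theorem result {K : Type*} [Field K] [Algebra ℝ K] (h : ∃ f g : K, f ^ 2 + g ^ 2 = -1)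
    (d m N : ℕ) (hd : 0 < d) (hN : m * d < N) (b : Fin m → K) (κ : Fin N → Fin m)
    (r : Fin N → ℝ) (y : Fin N → K) :
    ∃ x : Fin N → K, x ≠ 0 ∧
      ∑ i, (algebraMap ℝ K (r i) * b (κ i) * y i ^ d) * x i ^ d = 0 := by
  classical
  obtain ⟨f, g, hfg⟩ := h
  by_cases hy : ∃ i, y i = 0
  · obtain ⟨i, hi⟩ := hy
    refine ⟨Pi.single i 1, ?_, ?_⟩
    · intro h
      have := congrFun h i
      simp at this
    · refine Finset.sum_eq_zero fun j _ => ?_
      by_cases hji : j = i
      · rw [hji, hi, zero_pow hd.ne', mul_zero, zero_mul]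
      · rw [Pi.single_eq_of_ne hji, zero_pow hd.ne', mul_zero]
  · push Not at hy
    obtain ⟨c, -, hc⟩ := Finset.exists_lt_card_fiber_of_mul_lt_card_of_maps_to
      (s := (Finset.univ : Finset (Fin N))) (t := (Finset.univ : Finset (Fin m))) (f := κ) (n := d)
      (fun i _ => Finset.mem_univ _) (by simpa using hN)
    obtain ⟨S, hS⟩ : ∃ S : Finset (Fin N), S = Finset.univ.filter (fun i => κ i = c) := ⟨_, rfl⟩
    rw [← hS] at hc
    let e : S ≃ Fin S.card := S.equivFin
    obtain ⟨z, hz, hzs⟩ := Pool.Agent.K1H8.DF.main f g hfg d S.card hd hc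
      (fun j => r (e.symm j : Fin N))
    obtain ⟨z', hz'⟩ : ∃ z' : Fin N → K, z' = fun i => if hi : i ∈ S then z (e ⟨i, hi⟩) else 0 :=
      ⟨_, rfl⟩
    have hz1 : ∀ j, z' (e.symm j : Fin N) = z j := by
      intro j
      rw [hz']
      simp only [Finset.coe_mem, dif_pos, Subtype.coe_eta, Equiv.apply_symm_apply]
    have hz2 : ∀ i, i ∉ S → z' i = 0 := by
      intro i hi
      rw [hz']
      exact dif_neg hi
    refine ⟨fun i => z' i / y i, ?_, ?_⟩
    · intro h0
      apply hz
      funext j
      have h1 := congrFun h0 (e.symm j : Fin N)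
      simp only [Pi.zero_apply, div_eq_zero_iff] at h1
      rw [← hz1 j]
      exact h1.resolve_right (hy _)
    · have h1 : ∀ i, (algebraMap ℝ K (r i) * b (κ i) * y i ^ d) * (z' i / y i) ^ d =
          b c * (algebraMap ℝ K (r i) * z' i ^ d) := by
        intro i
        by_cases hi : i ∈ S
        · have hκ : κ i = c := by
            rw [hS] at hi
            exact (Finset.mem_filter.1 hi).2
          rw [hκ, div_pow]
          have := pow_ne_zero d (hy i)
          field_simp
        · rw [hz2 i hi, zero_div, zero_pow hd.ne', mul_zero, mul_zero, mul_zero]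
      rw [Finset.sum_congr rfl fun i _ => h1 i, ← Finset.mul_sum]
      have h2 : ∑ i, algebraMap ℝ K (r i) * z' i ^ d =
          ∑ i ∈ S, algebraMap ℝ K (r i) * z' i ^ d := by
        symm
        refine Finset.sum_subset (Finset.subset_univ S) fun i _ hi => ?_
        rw [hz2 i hi, zero_pow hd.ne', mul_zero]
      have h3 : ∑ i ∈ S, algebraMap ℝ K (r i) * z' i ^ d =
          ∑ j, algebraMap ℝ K (r (e.symm j : Fin N)) * z j ^ d := by
        rw [← Finset.sum_coe_sort, ← Equiv.sum_comp e.symm]
        exact Finset.sum_congr rfl fun j _ => by rw [hz1 j]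
      rw [h2, h3, hzs, mul_zero]

end Pool.Agent.Results.MP_daea48_ag.RealDiagonalForms
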