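import Pool.Agent.K1H8.DF.Symm

/-!
# Symmetric forms over a field in which `-1` is a sum of two squares

Let `K` be an extension field of the real numbers in which `-1` is a sum of two squares (for
instance the function field of a real curve without real points, by a theorem of Witt). All the
symmetric forms over `K` of positive degree at most `2 e + 1` in `N ≥ 2 · 3 · 5 ⋯ (2 e + 1)`
variables have a common nontrivial zero over `K`; the coefficients of the forms are arbitrary
elements of `K`.
-/

set_option autoImplicit false

namespace Pool.Agent.Results.MP_daea48_ag.SymmetricForms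

open MvPolynomial

theorem result {K : Type*} [Field K] [Algebra ℝ K] (h : ∃ f g : K, f ^ 2 + g ^ 2 = -1)
    (e N : ℕ) (hN : 2 * ∏ j ∈ Finset.range e, (2 * j + 3) ≤ N) :
    ∃ x : Fin N → K, x ≠ 0 ∧ ∀ (d : ℕ) (F : MvPolynomial (Fin N) K), 0 < d → d ≤ 2 * e + 1 →
      F.IsSymmetric → F.IsHomogeneous d → eval x F = 0 :=
  Pool.Agent.K1H8.DF.symmetric_forms h e N hN

end Pool.Agent.Results.MP_daea48_ag.SymmetricForms
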